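import Pool.Agent.W793.SCH.Stm3

/-! Project SCH, part W1. -/

open MeasureTheory

namespace Pool.Agent.W778.SCH.W1

open Pool.Agent.W793.SCH

theorem abs_sub_sin (u : ℝ) : |u - Real.sin u| ≤ 2 * |u| ^ 3 := by
  have h0 : 0 ≤ |u| := abs_nonneg u
  rcases le_or_gt |u| 1 with h | h
  · have h1 := Real.sin_bound h
    have h2 : |u - Real.sin u| ≤ |u| ^ 3 / 6 + |u| ^ 5 / 100 := by
      have e : u - Real.sin u = u ^ 3 / 6 + -(Real.sin u - (u - u ^ 3 / 6)) := by ring
      rw [e]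
      refine (abs_add_le _ _).trans ?_
      rw [abs_neg, abs_div, abs_pow]
      have : |(6 : ℝ)| = 6 := by norm_num
      rw [this]
      linarith
    have h3 : |u| ^ 5 ≤ |u| ^ 3 := pow_le_pow_of_le_one h0 h (by norm_num)
    have h4 : 0 ≤ |u| ^ 3 := pow_nonneg h0 3
    nlinarith
  · have h1 : |Real.sin u| ≤ 1 := Real.abs_sin_le_one u
    have h2 : |u - Real.sin u| ≤ |u| + |Real.sin u| := abs_sub _ _
    have h3 : |u| ≤ |u| ^ 3 := le_self_pow₀ h.le (by norm_num)
    linarith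

theorem prod_diff {ι : Type} [DecidableEq ι] (x : ι → ℝ) (h t : ℝ) (hh : 0 < h) (ht : 0 ≤ t)
    (s : Finset ι) : (∀ l ∈ s, |x l| ≤ t) →
    |∏ l ∈ s, x l - ∏ l ∈ s, Real.sin (h * x l) / h| ≤ 2 * h ^ 2 * s.card * t ^ (s.card + 2) := by
  induction s using Finset.induction_on with
  | empty => intro _; simp
  | insert a s ha ih =>
    intro hx
    have ih' := ih fun l hl => hx l (Finset.mem_insert_of_mem hl)
    have hxa : |x a| ≤ t := hx a (Finset.mem_insert_self a s)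
    have hb1 : |Real.sin (h * x a) / h| ≤ t := by
      rw [abs_div, abs_of_pos hh, div_le_iff₀ hh]
      calc |Real.sin (h * x a)| ≤ |h * x a| := Real.abs_sin_le_abs
        _ = |x a| * h := by rw [abs_mul, abs_of_pos hh, mul_comm]
        _ ≤ t * h := mul_le_mul_of_nonneg_right hxa hh.le
    have hb2 : |x a - Real.sin (h * x a) / h| ≤ 2 * h ^ 2 * t ^ 3 := by
      have e : x a - Real.sin (h * x a) / h = (h * x a - Real.sin (h * x a)) / h := by
        field_simp
      rw [e, abs_div, abs_of_pos hh, div_le_iff₀ hh]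
      calc |h * x a - Real.sin (h * x a)| ≤ 2 * |h * x a| ^ 3 := abs_sub_sin _
        _ = 2 * h ^ 2 * |x a| ^ 3 * h := by rw [abs_mul, abs_of_pos hh]; ring
        _ ≤ 2 * h ^ 2 * t ^ 3 * h := by
          have : |x a| ^ 3 ≤ t ^ 3 := pow_le_pow_left₀ (abs_nonneg _) hxa 3
          gcongr
    have hP : |∏ l ∈ s, x l| ≤ t ^ s.card := by
      rw [Finset.abs_prod]
      calc ∏ l ∈ s, |x l| ≤ ∏ _l ∈ s, t :=
            Finset.prod_le_prod (fun _ _ => abs_nonneg _) fun l hl => hx l (Finset.mem_insert_of_mem hl)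
        _ = t ^ s.card := by rw [Finset.prod_const]
    rw [Finset.prod_insert ha, Finset.prod_insert ha, Finset.card_insert_of_notMem ha]
    set Pr := ∏ l ∈ s, x l
    set Rr := ∏ l ∈ s, Real.sin (h * x l) / h
    have e : x a * Pr - Real.sin (h * x a) / h * Rr =
        (x a - Real.sin (h * x a) / h) * Pr + Real.sin (h * x a) / h * (Pr - Rr) := by ring
    rw [e]
    refine (abs_add_le _ _).trans ?_
    rw [abs_mul, abs_mul]
    have h1 : |x a - Real.sin (h * x a) / h| * |Pr| ≤ 2 * h ^ 2 * t ^ 3 * t ^ s.card :=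
      mul_le_mul hb2 hP (abs_nonneg _) (by positivity)
    have h2 : |Real.sin (h * x a) / h| * |Pr - Rr| ≤ t * (2 * h ^ 2 * s.card * t ^ (s.card + 2)) :=
      mul_le_mul hb1 ih' (abs_nonneg _) ht
    push_cast
    calc _ ≤ 2 * h ^ 2 * t ^ 3 * t ^ s.card + t * (2 * h ^ 2 * s.card * t ^ (s.card + 2)) :=
          add_le_add h1 h2
      _ = 2 * h ^ 2 * ((s.card : ℝ) + 1) * t ^ (s.card + 1 + 2) := by ring

theorem E1 {ι : Type} [DecidableEq ι] (m : ℕ) (x : ι → ℝ) (h : ℝ) (hh : 0 < h)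
    (s : Finset ι) (hs : s.card ≤ m) :
    |∏ l ∈ s, x l - ∏ l ∈ s, Real.sin (h * x l) / h| ≤
      2 * h ^ 2 * m * (1 + ∑ l ∈ s, |x l| ^ (m + 2)) := by
  have hS : 0 ≤ ∑ l ∈ s, |x l| ^ (m + 2) := Finset.sum_nonneg fun _ _ => by positivity
  rcases s.eq_empty_or_nonempty with rfl | hne
  · simp
    positivity
  obtain ⟨l0, hl0, hmax⟩ := s.exists_max_image (fun l => |x l|) hne
  have h1 := prod_diff x h |x l0| hh (abs_nonneg _) s hmax
  refine h1.trans ?_
  have h2 : |x l0| ^ (s.card + 2) ≤ 1 + ∑ l ∈ s, |x l| ^ (m + 2) := by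
    have h3 : |x l0| ^ (m + 2) ≤ ∑ l ∈ s, |x l| ^ (m + 2) :=
      Finset.single_le_sum (f := fun l => |x l| ^ (m + 2)) (fun _ _ => by positivity) hl0
    rcases le_or_gt |x l0| 1 with h | h
    · have : |x l0| ^ (s.card + 2) ≤ 1 := pow_le_one₀ (abs_nonneg _) h
      linarith
    · have : |x l0| ^ (s.card + 2) ≤ |x l0| ^ (m + 2) := pow_le_pow_right₀ h.le (by omega)
      linarith
  have h4 : (s.card : ℝ) ≤ m := Nat.cast_le.2 hs
  gcongr

section trig

variable {ι : Type} [Fintype ι] [DecidableEq ι]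

/-- the test functions -/
noncomputable def F {Ω : Type} (X : ι → Ω → ℝ) (h : ℝ) (s : Finset ι) (σ : ι → ℝ) (c : ℝ)
    (ω : Ω) : ℝ := (∏ l ∈ s, Real.sin (h * X l ω)) * Real.cos (∑ l, σ l * X l ω + c)

omit [DecidableEq ι] in
theorem F_int {Ω : Type} [MeasurableSpace Ω] (P : Measure Ω) [IsProbabilityMeasure P]
    {X : ι → Ω → ℝ} (hX : ∀ l, Measurable (X l)) (h : ℝ) (s : Finset ι) (σ : ι → ℝ) (c : ℝ) :
    Integrable (F X h s σ c) P := by
  refine Integrable.of_bound (C := 1) ?_ (Filter.Eventually.of_forall fun ω => ?_)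
  · refine Measurable.aestronglyMeasurable ?_
    unfold F
    refine Measurable.mul ?_ ?_
    · exact Finset.measurable_prod _ fun l _ => Real.measurable_sin.comp ((hX l).const_mul h)
    · exact Real.measurable_cos.comp
        ((Finset.measurable_sum _ fun l _ => (hX l).const_mul (σ l)).add_const c)
  · unfold F
    rw [norm_mul, Real.norm_eq_abs, Real.norm_eq_abs, Finset.abs_prod]
    have h1 : ∏ l ∈ s, |Real.sin (h * X l ω)| ≤ 1 :=
      Finset.prod_le_one (fun _ _ => abs_nonneg _) fun _ _ => Real.abs_sin_le_one _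
    exact mul_le_one₀ h1 (abs_nonneg _) (Real.abs_cos_le_one _)

theorem F_insert {Ω : Type} (X : ι → Ω → ℝ) (h : ℝ) (s : Finset ι) (a : ι) (ha : a ∉ s)
    (σ : ι → ℝ) (hσ : σ a = 0) (c : ℝ) (ω : Ω) :
    F X h (insert a s) σ c ω = (F X h s (Function.update σ a h) (c - Real.pi / 2) ω -
      F X h s (Function.update σ a (-h)) (c - Real.pi / 2) ω) / 2 := by
  have key : ∀ g : ℝ, ∑ l, Function.update σ a g l * X l ω = ∑ l, σ l * X l ω + g * X a ω := by
    intro g
    have e : ∀ l, Function.update σ a g l * X l ω =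
        σ l * X l ω + if l = a then g * X a ω else 0 := by
      intro l
      by_cases hl : l = a
      · subst hl
        rw [Function.update_self, hσ]
        simp
      · rw [Function.update_of_ne hl, if_neg hl, add_zero]
    rw [Finset.sum_congr rfl fun l _ => e l, Finset.sum_add_distrib, Finset.sum_ite_eq']
    simp
  unfold F
  rw [Finset.prod_insert ha, key, key]
  set v := ∑ l, σ l * X l ω
  set R := ∏ l ∈ s, Real.sin (h * X l ω)
  have e1 : Real.cos (v + h * X a ω + (c - Real.pi / 2)) =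
      Real.sin ((v + c) + h * X a ω) := by
    rw [← Real.cos_sub_pi_div_two]
    congr 1
    ring
  have e2 : Real.cos (v + -h * X a ω + (c - Real.pi / 2)) =
      Real.sin ((v + c) - h * X a ω) := by
    rw [← Real.cos_sub_pi_div_two]
    congr 1
    ring
  rw [e1, e2, Real.sin_add, Real.sin_sub]
  ring

theorem trig {Ω Ω' : Type} [MeasurableSpace Ω] [MeasurableSpace Ω'] (P : Measure Ω)
    [IsProbabilityMeasure P] (Q : Measure Ω') [IsProbabilityMeasure Q] {X : ι → Ω → ℝ}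
    {Y : ι → Ω' → ℝ} (hX : ∀ l, Measurable (X l)) (hY : ∀ l, Measurable (Y l)) {δ h : ℝ}
    (hh : 0 < h) (hh1 : h ≤ 1)
    (hc : ∀ σ : ι → ℝ, (∀ l, |σ l| ≤ 1) → |(∫ ω, Real.cos (∑ l, σ l * X l ω) ∂P) -
      ∫ ω, Real.cos (∑ l, σ l * Y l ω) ∂Q| ≤ δ)
    (hs : ∀ σ : ι → ℝ, (∀ l, |σ l| ≤ 1) → |(∫ ω, Real.sin (∑ l, σ l * X l ω) ∂P) -
      ∫ ω, Real.sin (∑ l, σ l * Y l ω) ∂Q| ≤ δ) (s : Finset ι) :
    ∀ σ : ι → ℝ, (∀ l ∈ s, σ l = 0) → (∀ l, |σ l| ≤ 1) → ∀ c : ℝ,
      |(∫ ω, F X h s σ c ω ∂P) - ∫ ω, F Y h s σ c ω ∂Q| ≤ 2 * δ := by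
  induction s using Finset.induction_on with
  | empty =>
    intro σ _ hσ c
    have e : ∀ {Ω : Type} [MeasurableSpace Ω] (P : Measure Ω) [IsProbabilityMeasure P]
        {X : ι → Ω → ℝ} (_ : ∀ l, Measurable (X l)), ∫ ω, F X h ∅ σ c ω ∂P =
        Real.cos c * (∫ ω, Real.cos (∑ l, σ l * X l ω) ∂P) -
          Real.sin c * ∫ ω, Real.sin (∑ l, σ l * X l ω) ∂P := by
      intro Ω _ P _ X hX
      have hm : Measurable fun ω => ∑ l, σ l * X l ω :=
        Finset.measurable_sum _ fun l _ => (hX l).const_mul (σ l)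
      have i1 : Integrable (fun ω => Real.cos (∑ l, σ l * X l ω)) P :=
        Integrable.of_bound (C := 1) (Real.measurable_cos.comp hm).aestronglyMeasurable
          (Filter.Eventually.of_forall fun ω => Real.abs_cos_le_one _)
      have i2 : Integrable (fun ω => Real.sin (∑ l, σ l * X l ω)) P :=
        Integrable.of_bound (C := 1) (Real.measurable_sin.comp hm).aestronglyMeasurable
          (Filter.Eventually.of_forall fun ω => Real.abs_sin_le_one _)
      rw [← integral_const_mul, ← integral_const_mul, ← integral_sub (i1.const_mul _) (i2.const_mul _)]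
      refine integral_congr_ae (Filter.Eventually.of_forall fun ω => ?_)
      simp only [F, Finset.prod_empty, one_mul, Real.cos_add]
      ring
    rw [e P hX, e Q hY]
    have h1 := hc σ hσ
    have h2 := hs σ hσ
    set a := ∫ ω, Real.cos (∑ l, σ l * X l ω) ∂P
    set b := ∫ ω, Real.sin (∑ l, σ l * X l ω) ∂P
    set a' := ∫ ω, Real.cos (∑ l, σ l * Y l ω) ∂Q
    set b' := ∫ ω, Real.sin (∑ l, σ l * Y l ω) ∂Q
    have e3 : Real.cos c * a - Real.sin c * b - (Real.cos c * a' - Real.sin c * b') =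
        Real.cos c * (a - a') + -(Real.sin c * (b - b')) := by ring
    rw [e3]
    refine (abs_add_le _ _).trans ?_
    rw [abs_neg, abs_mul, abs_mul]
    have h3 : |Real.cos c| * |a - a'| ≤ 1 * δ :=
      mul_le_mul (Real.abs_cos_le_one c) h1 (abs_nonneg _) zero_le_one
    have h4 : |Real.sin c| * |b - b'| ≤ 1 * δ :=
      mul_le_mul (Real.abs_sin_le_one c) h2 (abs_nonneg _) zero_le_one
    linarith
  | insert a s ha ih =>
    intro σ hσ0 hσ c
    have hup : ∀ g : ℝ, |g| ≤ 1 → (∀ l ∈ s, Function.update σ a g l = 0) ∧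
        ∀ l, |Function.update σ a g l| ≤ 1 := by
      intro g hg
      refine ⟨fun l hl => ?_, fun l => ?_⟩
      · rw [Function.update_of_ne (ne_of_mem_of_not_mem hl ha)]
        exact hσ0 l (Finset.mem_insert_of_mem hl)
      · by_cases hl : l = a
        · rw [hl, Function.update_self]; exact hg
        · rw [Function.update_of_ne hl]; exact hσ l
    have hp := hup h (by rw [abs_of_pos hh]; exact hh1)
    have hn := hup (-h) (by rw [abs_neg, abs_of_pos hh]; exact hh1)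
    have h1 := ih _ hp.1 hp.2 (c - Real.pi / 2)
    have h2 := ih _ hn.1 hn.2 (c - Real.pi / 2)
    have hσa := hσ0 a (Finset.mem_insert_self a s)
    simp only [F_insert X h s a ha σ hσa, F_insert Y h s a ha σ hσa]
    rw [integral_div, integral_div, integral_sub (F_int P hX _ _ _ _) (F_int P hX _ _ _ _),
      integral_sub (F_int Q hY _ _ _ _) (F_int Q hY _ _ _ _)]
    rw [abs_le] at h1 h2 ⊢
    constructor <;> linarith [h1.1, h1.2, h2.1, h2.2]

end trig

theorem t_W1 (hI : S_ISS) : S_W1 := by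
  intro m
  obtain ⟨C0, hC0, hI'⟩ := hI (m + 2)
  refine ⟨2 + 2 * m * (1 + m) + 2 * m * (1 + m * C0 * 2 ^ (m + 2)), by positivity, ?_⟩
  intro ι _ _ Ω _ P _ X A M δ h hN hh hh1 L hL hLm
  obtain ⟨Q, hQ, hcos, hsin, hmom, hprod⟩ := hI' ι A hN.symm hN.psd
  set s : Finset ι := L.toFinset with hs
  have hcard : s.card = L.length := by rw [hs, List.toFinset_card_of_nodup hL]
  have hsm : s.card ≤ m := by rw [hcard]; exact hLm
  have eL : ∀ f : ι → ℝ, (L.map f).prod = ∏ l ∈ s, f l := fun f =>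
    (List.prod_toFinset f hL).symm
  obtain ⟨hint, hval⟩ := hprod L (by omega)
  simp only [eL] at hint hval ⊢
  rw [← hval]
  obtain ⟨B, hB⟩ := hN.bdd
  have hM := hN.one_le
  have hYm : ∀ l : ι, Measurable (fun y : ι → ℝ => y l) := fun l => measurable_pi_apply l
  -- sine products
  have hT := trig P Q (Y := fun l (y : ι → ℝ) => y l) hN.meas hYm hh hh1
    (fun σ hσ => by rw [hcos σ]; exact hN.cos σ hσ)
    (fun σ hσ => by rw [hsin σ, sub_zero]; exact hN.sin σ hσ) s (fun _ => 0) (fun _ _ => rfl)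
    (fun _ => by simp) 0
  simp only [F, zero_mul, Finset.sum_const_zero, add_zero, Real.cos_zero, mul_one] at hT
  have hiP : Integrable (fun ω => ∏ l ∈ s, Real.sin (h * X l ω)) P := by
    refine (F_int P hN.meas h s (fun _ => 0) 0).congr (Filter.Eventually.of_forall fun ω => ?_)
    simp [F]
  have hiQ : Integrable (fun y : ι → ℝ => ∏ l ∈ s, Real.sin (h * y l)) Q := by
    refine (F_int Q hYm h s (fun _ => 0) 0).congr (Filter.Eventually.of_forall fun ω => ?_)
    simp [F]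
  -- integrability of powers and products of X
  have hXp : ∀ l, Integrable (fun ω => |X l ω| ^ (m + 2)) P := by
    intro l
    refine Integrable.of_bound (C := |B| ^ (m + 2)) ?_ (Filter.Eventually.of_forall fun ω => ?_)
    · exact ((hN.meas l).abs.pow_const _).aestronglyMeasurable
    · rw [Real.norm_eq_abs, abs_pow, abs_abs]
      exact pow_le_pow_left₀ (abs_nonneg _) ((hB l ω).trans (le_abs_self B)) _
  have hXprod : Integrable (fun ω => ∏ l ∈ s, X l ω) P := by
    refine Integrable.of_bound (C := |B| ^ s.card) ?_ (Filter.Eventually.of_forall fun ω => ?_)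
    · exact (Finset.measurable_prod _ fun l _ => hN.meas l).aestronglyMeasurable
    · rw [Real.norm_eq_abs, Finset.abs_prod, ← Finset.prod_const]
      exact Finset.prod_le_prod (fun _ _ => abs_nonneg _) fun l _ => (hB l ω).trans (le_abs_self B)
  -- general comparison
  have comp : ∀ {Ω' : Type} [MeasurableSpace Ω'] (ν : Measure Ω') [IsProbabilityMeasure ν]
      (Z : ι → Ω' → ℝ) (K : ℝ), Integrable (fun ω => ∏ l ∈ s, Z l ω) ν →
      Integrable (fun ω => ∏ l ∈ s, Real.sin (h * Z l ω)) ν →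
      (∀ l, Integrable (fun ω => |Z l ω| ^ (m + 2)) ν) → 0 ≤ K →
      (∀ l, ∫ ω, |Z l ω| ^ (m + 2) ∂ν ≤ K) →
      |(∫ ω, ∏ l ∈ s, Z l ω ∂ν) - (∫ ω, ∏ l ∈ s, Real.sin (h * Z l ω) ∂ν) / h ^ s.card| ≤
        2 * h ^ 2 * m * (1 + m * K) := by
    intro Ω' _ ν _ Z K i1 i2 i3 hK hK'
    have e1 : (∫ ω, ∏ l ∈ s, Z l ω ∂ν) - (∫ ω, ∏ l ∈ s, Real.sin (h * Z l ω) ∂ν) / h ^ s.card =
        ∫ ω, (∏ l ∈ s, Z l ω - ∏ l ∈ s, Real.sin (h * Z l ω) / h) ∂ν := by
      rw [← integral_div, ← integral_sub i1 (i2.div_const _)]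
      refine integral_congr_ae (Filter.Eventually.of_forall fun ω => ?_)
      simp only [Finset.prod_div_distrib, Finset.prod_const]
    rw [e1]
    have i4 : Integrable (fun ω => 2 * h ^ 2 * m * (1 + ∑ l ∈ s, |Z l ω| ^ (m + 2))) ν :=
      ((integrable_const (1 : ℝ)).add (integrable_finsetSum _ fun l _ => i3 l)).const_mul _
    calc |∫ ω, (∏ l ∈ s, Z l ω - ∏ l ∈ s, Real.sin (h * Z l ω) / h) ∂ν|
        ≤ ∫ ω, |∏ l ∈ s, Z l ω - ∏ l ∈ s, Real.sin (h * Z l ω) / h| ∂ν := abs_integral_le_integral_abs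
      _ ≤ ∫ ω, 2 * h ^ 2 * m * (1 + ∑ l ∈ s, |Z l ω| ^ (m + 2)) ∂ν := by
        refine integral_mono_of_nonneg (Filter.Eventually.of_forall fun ω => abs_nonneg _) i4
          (Filter.Eventually.of_forall fun ω => ?_)
        exact E1 m (fun l => Z l ω) h hh s hsm
      _ = 2 * h ^ 2 * m * (1 + ∑ l ∈ s, ∫ ω, |Z l ω| ^ (m + 2) ∂ν) := by
        rw [integral_const_mul, integral_add (integrable_const (1 : ℝ))
          (integrable_finsetSum _ fun l _ => i3 l), integral_finsetSum _ fun l _ => i3 l]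
        simp
      _ ≤ 2 * h ^ 2 * m * (1 + m * K) := by
        have h5 : ∑ l ∈ s, ∫ ω, |Z l ω| ^ (m + 2) ∂ν ≤ m * K := by
          calc ∑ l ∈ s, ∫ ω, |Z l ω| ^ (m + 2) ∂ν ≤ ∑ _l ∈ s, K :=
                Finset.sum_le_sum fun l _ => hK' l
            _ = s.card * K := by rw [Finset.sum_const, nsmul_eq_mul]
            _ ≤ m * K := by
              have : (s.card : ℝ) ≤ m := Nat.cast_le.2 hsm
              gcongr
        gcongr
  have hMp : 1 ≤ M ^ (m + 2) := one_le_pow₀ hM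
  have c1 := comp P X (M ^ (m + 2)) hXprod hiP hXp (by positivity)
    (fun l => (hN.mom l).trans (le_self_pow₀ hM (by omega)))
  have c2 := comp Q (fun l (y : ι → ℝ) => y l) (C0 * (2 * M) ^ (m + 2)) hint hiQ
    (fun l => (hmom l (m + 2) le_rfl).1) (by positivity) (fun l => by
      refine (hmom l (m + 2) le_rfl).2.trans ?_
      have h6 : |1 + A l l| ≤ 2 * M := by
        refine (abs_add_le _ _).trans ?_
        rw [abs_one]
        have := hN.bound l l
        linarith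
      have h7 : (1 + A l l) ^ (m + 2) ≤ (2 * M) ^ (m + 2) := by
        refine (le_abs_self _).trans ?_
        rw [abs_pow]
        exact pow_le_pow_left₀ (abs_nonneg _) h6 _
      gcongr)
  set a := ∫ ω, ∏ l ∈ s, X l ω ∂P
  set b := ∫ y : ι → ℝ, ∏ l ∈ s, y l ∂Q
  set u := ∫ ω, ∏ l ∈ s, Real.sin (h * X l ω) ∂P
  set v := ∫ y : ι → ℝ, ∏ l ∈ s, Real.sin (h * y l) ∂Q
  have hn : 0 < h ^ s.card := pow_pos hh _
  have h8 : |u / h ^ s.card - v / h ^ s.card| ≤ 2 * (δ / h ^ m) := by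
    rw [← sub_div, abs_div, abs_of_pos hn]
    have h9 : 1 / h ^ s.card ≤ 1 / h ^ m :=
      one_div_le_one_div_of_le (pow_pos hh m) (pow_le_pow_of_le_one hh.le hh1 hsm)
    calc |u - v| / h ^ s.card ≤ (2 * δ) / h ^ s.card := by gcongr
      _ = 2 * δ * (1 / h ^ s.card) := by ring
      _ ≤ 2 * δ * (1 / h ^ m) := mul_le_mul_of_nonneg_left h9 (by linarith [hN.nonneg])
      _ = 2 * (δ / h ^ m) := by ring
  have h10 : |a - b| ≤ 2 * h ^ 2 * m * (1 + m * M ^ (m + 2)) + 2 * (δ / h ^ m) +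
      2 * h ^ 2 * m * (1 + m * (C0 * (2 * M) ^ (m + 2))) := by
    rw [abs_le] at c1 c2 h8 ⊢
    constructor <;> linarith [c1.1, c1.2, c2.1, c2.2, h8.1, h8.2]
  refine h10.trans ?_
  have hδ : 0 ≤ δ / h ^ m := div_nonneg hN.nonneg (pow_pos hh m).le
  have hm0 : (0 : ℝ) ≤ m := Nat.cast_nonneg m
  have t1 : 2 * h ^ 2 * m * (1 + m * M ^ (m + 2)) ≤
      (2 * m * (1 + m)) * (h ^ 2 * M ^ (m + 2)) := by
    have : 1 + m * M ^ (m + 2) ≤ (1 + m) * M ^ (m + 2) := by linarith
    calc 2 * h ^ 2 * m * (1 + m * M ^ (m + 2)) ≤ 2 * h ^ 2 * m * ((1 + m) * M ^ (m + 2)) := by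
          gcongr
      _ = _ := by ring
  have t2 : 2 * h ^ 2 * m * (1 + m * (C0 * (2 * M) ^ (m + 2))) ≤
      (2 * m * (1 + m * C0 * 2 ^ (m + 2))) * (h ^ 2 * M ^ (m + 2)) := by
    have : 1 + m * (C0 * (2 * M) ^ (m + 2)) ≤ (1 + m * C0 * 2 ^ (m + 2)) * M ^ (m + 2) := by
      rw [mul_pow]
      have e : (1 + m * C0 * 2 ^ (m + 2)) * M ^ (m + 2) =
          M ^ (m + 2) + m * (C0 * (2 ^ (m + 2) * M ^ (m + 2))) := by ring
      rw [e]
      linarith
    calc 2 * h ^ 2 * m * (1 + m * (C0 * (2 * M) ^ (m + 2))) ≤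
          2 * h ^ 2 * m * ((1 + m * C0 * 2 ^ (m + 2)) * M ^ (m + 2)) := by gcongr
      _ = _ := by ring
  have hhM : 0 ≤ h ^ 2 * M ^ (m + 2) := by positivity
  have hc1 : (0 : ℝ) ≤ 2 * m * (1 + m) := by positivity
  have hc2 : (0 : ℝ) ≤ 2 * m * (1 + m * C0 * 2 ^ (m + 2)) := by positivity
  nlinarith [mul_nonneg hc1 hδ, mul_nonneg hc2 hδ]

end Pool.Agent.W778.SCH.W1
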